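import Mathlib
import Pool.Agent.H.MP_b7167f_an.Def
import Pool.Agent.H.MP_b7167f_an.AlgFinal

open MeasureTheory
open scoped ENNReal NNReal

open Pool.Agent.H.MP_b7167f_an

/-- The restriction conjecture (in extension form), in its full conjectured range
`q > 2 (n + 1) / n = 2 d / (d - 1)` with `d = n + 1 ≥ 3`, for polynomial phases on semialgebraic
sets in two-dimensional blocks.

The `n` frequency variables are split, in an arbitrary way `e`, into `n₁` single variables and `n₂`
pairs.  On the `l`-th pair `ζ` of variables the function is `1_{S_l}(ζ) * exp (i P_l(ζ))`, where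
`P_l` is a real polynomial and `S_l = {ζ | p_{l,1}(ζ) > 0, …, p_{l,m}(ζ) > 0}`, all polynomials
having degree at most `k`; in the single variables it is `T (u₁(ξ₁), …, u_{n₁}(ξ_{n₁}))` with a
bounded multilinear form `T` on complex Hilbert spaces and strongly measurable `uⱼ` that are bounded
by `1` (for instance a product of arbitrary bounded measurable functions of one variable).
The constant depends on `n`, `k`, `m`, `q` only, not on the coefficients of the polynomials.
The case `n₁ = 0`, `n₂ = 1` is the conjecture in `ℝ³` for `f = 1_S e^{iP}`. -/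
theorem Pool.Agent.Results.MP_b7167f_an.AlgebraicPhase.result
    (n n₁ n₂ k m : ℕ) (hn : n = n₁ + 2 * n₂) (h2 : 2 ≤ n) (q : ℝ)
    (hq : 2 * ((n : ℝ) + 1) / n < q) :
    ∃ C : ℝ≥0, ∀ (e : Fin n₁ ⊕ Fin n₂ × Fin 2 ≃ Fin n) (H : Fin n₁ → Type*)
      [∀ j, NormedAddCommGroup (H j)] [∀ j, InnerProductSpace ℂ (H j)] [∀ j, CompleteSpace (H j)]
      (T : ContinuousMultilinearMap ℂ H ℂ) (u : ∀ j, ℝ → H j),
      (∀ j, StronglyMeasurable (u j)) →
      (∀ j, ∀ s ∈ Set.Icc (-1 : ℝ) 1, ‖u j s‖ ≤ 1) →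
      ∀ (P : Fin n₂ → MvPolynomial (Fin 2) ℝ) (p : Fin n₂ → Fin m → MvPolynomial (Fin 2) ℝ),
      (∀ l, (P l).totalDegree ≤ k) → (∀ l i, (p l i).totalDegree ≤ k) →
      eLpNorm (extOp n (fun ξ => T (fun j => u j (ξ (e (Sum.inl j)))) *
          ∏ l, Set.indicator {ζ : Fin 2 → ℝ | ∀ i, 0 < MvPolynomial.eval ζ (p l i)}
            (fun ζ => Complex.exp (Complex.I * (MvPolynomial.eval ζ (P l) : ℝ)))
            (fun c => ξ (e (Sum.inr (l, c))))))
        (ENNReal.ofReal q) volume ≤ C * ‖T‖ₑ := by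
  obtain ⟨C, hC⟩ := alg_final n n₁ n₂ k m hn h2 hq
  refine ⟨C, ?_⟩
  intro e H _ _ _ T u hu hbu P p hP hp
  have h := hC e ⟨H, T, u, hu, hbu⟩ P p hP hp
  have e1 : algF e (⟨H, T, u, hu, hbu⟩ : HForm n₁) P p = fun ξ =>
      T (fun j => u j (ξ (e (Sum.inl j)))) *
          ∏ l, Set.indicator {ζ : Fin 2 → ℝ | ∀ i, 0 < MvPolynomial.eval ζ (p l i)}
            (fun ζ => Complex.exp (Complex.I * (MvPolynomial.eval ζ (P l) : ℝ)))
            (fun c => ξ (e (Sum.inr (l, c)))) := by
    funext ξ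
    exact algF_eq e _ P p ξ
  rw [e1] at h
  exact h
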